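import Mathlib
import Pool.Agent.N533.ZK.D

/-!
# The maximum order complexity of the Zeckendorf parity sequence is not asymptotically linear

`SZ n` is the parity of the number of terms of the Zeckendorf representation of `n`, and `M s N` is
the `N`th maximum order complexity of the binary sequence `s`. At the points
`N = fib m + fib (m - 2)` the function `N ↦ M SZ N` jumps: `M SZ N ≤ N / 5`, but
`M SZ (N + 1) ≥ (N + 1) / (1 + φ ^ 2) = 0.276... (N + 1)`. Hence `M SZ N / N` has no limit, and the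
answer to the question is negative.

Proof. The sequence is a coding of the fixed point `x` of the morphism
`a ↦ ab, b ↦ c, c ↦ cd, d ↦ a`. A window of four letters of the coded sequence determines the second
letter of `x`. Two long equal factors of `x` with different successors are the images of two shorter
ones, up to a bounded number of letters, and the length is multiplied by the golden ratio up to a
bounded error, while `fib m + fib (m - 2)` goes to `fib (m + 1) + fib (m - 1)`. The start of the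
induction is a computation for the first 322 letters.
-/

set_option autoImplicit false

open Filter Topology

namespace Pool.Agent.Results.MP_b74c76_co.NoLimit

/-- the Zeckendorf parity sequence: `SZ n` is `true` if and only if the number `s_Z(n)` of Fibonacci
numbers in the Zeckendorf representation of `n` is odd -/
def SZ (n : ℕ) : Bool := decide ((Nat.zeckendorf n).length % 2 = 1)

/-- the `N`th maximum order complexity of the binary sequence `s`: the least `k` such that for some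
function `f` of `k` bits `s (i + k) = f (s i, ..., s (i + k - 1))` for all `i` with `i + k < N` -/
noncomputable def M (s : ℕ → Bool) (N : ℕ) : ℕ :=
  sInf {k : ℕ | ∃ f : (Fin k → Bool) → Bool, ∀ i, i + k < N → s (i + k) = f fun t => s (i + t)}

open Pool.Agent.N533.ZK in
theorem SZ_eq (n : ℕ) : SZ n = (X n).2 := (X_snd n).symm

theorem M_le {s : ℕ → Bool} {N K : ℕ} (h : ∀ i j, i < j → j + K < N →
    (∀ t < K, s (i + t) = s (j + t)) → s (i + K) = s (j + K)) : M s N ≤ K := by
  classical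
  apply Nat.sInf_le
  refine ⟨fun w => if hw : ∃ i, i + K < N ∧ (fun t : Fin K => s (i + t)) = w then
    s (hw.choose + K) else false, ?_⟩
  intro i hi
  have hw : ∃ i', i' + K < N ∧ (fun t : Fin K => s (i' + t)) = fun t : Fin K => s (i + t) :=
    ⟨i, hi, rfl⟩
  beta_reduce
  rw [dif_pos hw]
  obtain ⟨h1, h2⟩ := hw.choose_spec
  have h3 : ∀ t < K, s (hw.choose + t) = s (i + t) := fun t ht => congrFun h2 ⟨t, ht⟩
  rcases lt_trichotomy i hw.choose with hlt | heq | hgt
  · exact h i _ hlt h1 fun t ht => (h3 t ht).symm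
  · rw [← heq]
  · exact (h _ i hgt hi h3).symm

theorem le_M {s : ℕ → Bool} {N K i j : ℕ} (hij : i ≤ j) (hj : j < N) (hK : K ≤ i)
    (hw : ∀ t, 1 ≤ t → t ≤ K → s (i - t) = s (j - t)) (hne : s i ≠ s j) : K + 1 ≤ M s N := by
  have hne' : {k : ℕ | ∃ f : (Fin k → Bool) → Bool, ∀ i, i + k < N →
      s (i + k) = f fun t => s (i + t)}.Nonempty :=
    ⟨N, fun _ => false, fun i hi => by omega⟩
  apply le_csInf hne'
  rintro k ⟨f, hf⟩
  by_contra hk
  have h1 := hf (i - k) (by omega)
  have h2 := hf (j - k) (by omega)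
  rw [show i - k + k = i by omega] at h1
  rw [show j - k + k = j by omega] at h2
  apply hne
  rw [h1, h2]
  congr 1
  funext t
  have ht := t.2
  have h3 := hw (k - t) (by omega) (by omega)
  rwa [show i - (k - (t : ℕ)) = i - k + t by omega,
    show j - (k - (t : ℕ)) = j - k + t by omega] at h3

open Pool.Agent.N533.ZK in
/-- the upper bound before the jump -/
theorem upper (k : ℕ) (hk : 1 ≤ k) : (M SZ (NN k) : ℝ) ≤ (NN k : ℝ) / 5 := by
  have hg := gr_gt
  have hg2 := gr_lt
  set r : ℝ := gr ^ k * (55 + 4 * gr) - 4 * gr with hr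
  have h1 : (1 : ℝ) ≤ gr ^ k := one_le_pow₀ (by linarith)
  have hr0 : 0 ≤ r := by nlinarith
  have hrun := run_NN k
  rw [← hr] at hrun
  have hM : M SZ (NN k) ≤ ⌊r⌋₊ + 4 := by
    apply M_le
    intro i j hij hj hw
    rw [SZ_eq, SZ_eq]
    refine next_sign hrun (by omega) ?_ hij hj fun t ht => ?_
    · have := Nat.lt_floor_add_one r
      push_cast
      linarith
    · have := hw t ht
      rwa [SZ_eq, SZ_eq] at this
  have h2 : (M SZ (NN k) : ℝ) ≤ r + 4 := by
    have h3 : (M SZ (NN k) : ℝ) ≤ (⌊r⌋₊ : ℝ) + 4 := by exact_mod_cast hM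
    have := Nat.floor_le hr0
    linarith
  have h4 := NN_lower k
  have h5 : (521 : ℝ) ≤ NN k := by
    have h6 : NN 1 ≤ NN k := by
      unfold NN
      exact Nat.add_le_add (Nat.fib_mono (by omega)) (Nat.fib_mono (by omega))
    have h7 : NN 1 = 521 := by decide
    rw [h7] at h6
    exact_mod_cast h6
  have h8 : gr ^ k * (55 + 4 * gr) ≤ gr ^ k * 61.4724 :=
    mul_le_mul_of_nonneg_left (by linarith) (by positivity)
  have h9 : r ≤ (NN k - 1) / 321 * 61.4724 - 4 * 1.618 := by
    have : gr ^ k ≤ (NN k - 1) / 321 := by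
      rw [le_div_iff₀ (by norm_num)]; exact h4
    nlinarith
  nlinarith

open Pool.Agent.N533.ZK in
/-- the lower bound after the jump -/
theorem lower (m : ℕ) : Nat.fib (m + 2) + 1 ≤ M SZ (Nat.fib (m + 4) + Nat.fib (m + 2) + 1) := by
  have f4 : Nat.fib (m + 4) = Nat.fib (m + 2) + Nat.fib (m + 3) := Nat.fib_add_two
  have f3 : Nat.fib (m + 3) = Nat.fib (m + 1) + Nat.fib (m + 2) := Nat.fib_add_two
  have hp : 0 < Nat.fib (m + 1) := Nat.fib_pos.2 (by omega)
  have hp2 : 0 < Nat.fib (m + 2) := Nat.fib_pos.2 (by omega)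
  refine le_M (i := Nat.fib (m + 4)) (j := Nat.fib (m + 4) + Nat.fib (m + 2)) (by omega) (by omega)
    (by omega) ?_ ?_
  · intro t h1 h2
    obtain ⟨r, hr⟩ : ∃ r, r + t = Nat.fib (m + 2) := ⟨Nat.fib (m + 2) - t, by omega⟩
    have e1 : Nat.fib (m + 4) - t = Nat.fib (m + 3) + r := by omega
    have e2 : Nat.fib (m + 4) + Nat.fib (m + 2) - t = Nat.fib (m + 4) + r := by omega
    rw [e1, e2, SZ_eq, SZ_eq, s_fib_add (by omega), s_fib_add (by omega)]
    · show r < Nat.fib (m + 3)
      omega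
    · show r < Nat.fib (m + 2)
      omega
  · have h1 := s_fib_add (k := m + 4) (r := 0) (by omega) (by
      show 0 < Nat.fib (m + 3); omega)
    have h2 := s_fib_add (k := m + 4) (r := Nat.fib (m + 2)) (by omega) (by
      show Nat.fib (m + 2) < Nat.fib (m + 3); omega)
    have h3 := s_fib_add (k := m + 2) (r := 0) (by omega) (by
      show 0 < Nat.fib (m + 1); omega)
    rw [Nat.add_zero] at h1 h3
    rw [SZ_eq, SZ_eq, h1, h2, h3]
    cases (X 0).2 <;> decide

theorem lower' (m : ℕ) : ((Nat.fib (m + 4) + Nat.fib (m + 2) + 1 : ℕ) : ℝ) /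
    (1 + Real.goldenRatio ^ 2) ≤ M SZ (Nat.fib (m + 4) + Nat.fib (m + 2) + 1) := by
  have hg : (1.618 : ℝ) < Real.goldenRatio := Pool.Agent.N533.ZK.gr_gt
  have hg2 : Real.goldenRatio < 1.6181 := Pool.Agent.N533.ZK.gr_lt
  have hsq := Real.goldenRatio_sq
  have h1 : ((Nat.fib (m + 2) + 1 : ℕ) : ℝ) ≤ M SZ (Nat.fib (m + 4) + Nat.fib (m + 2) + 1) := by
    exact_mod_cast lower m
  rw [div_le_iff₀ (by positivity)]
  refine le_trans ?_ (mul_le_mul_of_nonneg_right h1 (by positivity))
  have e1 := (abs_le.1 (Pool.Agent.N533.ZK.fib_near (m + 2)).le).2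
  have f4 : (Nat.fib (m + 4) : ℝ) = Nat.fib (m + 2) + Nat.fib (m + 3) := by
    exact_mod_cast (Nat.fib_add_two (n := m + 2))
  have e2 : (Pool.Agent.N533.ZK.gr - 1) ^ (m + 2) ≤ 1 :=
    pow_le_one₀ (by show 0 ≤ Real.goldenRatio - 1; linarith)
      (by show Real.goldenRatio - 1 ≤ 1; linarith)
  have e3 : (Nat.fib (m + 2 + 1) : ℝ) = Nat.fib (m + 3) := rfl
  rw [e3] at e1
  push_cast
  rw [f4, hsq]
  have e4 : (Nat.fib (m + 3) : ℝ) ≤ Real.goldenRatio * Nat.fib (m + 2) + 1 := by
    have : (Pool.Agent.N533.ZK.gr : ℝ) = Real.goldenRatio := rfl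
    rw [this] at e1 e2
    linarith
  have e5 : (0 : ℝ) ≤ Nat.fib (m + 2) := by positivity
  nlinarith

/-- Let `M` be the maximum order complexity of the Zeckendorf parity sequence. For all `m ≥ 14` and
`N = fib m + fib (m - 2)` we have `M N ≤ N / 5` and `M (N + 1) ≥ (N + 1) / (1 + φ ^ 2)`. In
particular `M N / N` has no limit; in particular it does not tend to `1 / (1 + φ ^ 2)`. -/
theorem result :
    (∀ m : ℕ, 14 ≤ m →
      (M SZ (Nat.fib m + Nat.fib (m - 2)) : ℝ) ≤ ((Nat.fib m + Nat.fib (m - 2) : ℕ) : ℝ) / 5 ∧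
      ((Nat.fib m + Nat.fib (m - 2) + 1 : ℕ) : ℝ) / (1 + Real.goldenRatio ^ 2) ≤
        M SZ (Nat.fib m + Nat.fib (m - 2) + 1)) ∧
    (¬ ∃ L : ℝ, Tendsto (fun N : ℕ => (M SZ N : ℝ) / N) atTop (𝓝 L)) ∧
    ¬ Tendsto (fun N : ℕ => (M SZ N : ℝ) / N) atTop (𝓝 (1 / (1 + Real.goldenRatio ^ 2))) := by
  have key : ∀ m : ℕ, 14 ≤ m →
      (M SZ (Nat.fib m + Nat.fib (m - 2)) : ℝ) ≤ ((Nat.fib m + Nat.fib (m - 2) : ℕ) : ℝ) / 5 ∧
      ((Nat.fib m + Nat.fib (m - 2) + 1 : ℕ) : ℝ) / (1 + Real.goldenRatio ^ 2) ≤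
        M SZ (Nat.fib m + Nat.fib (m - 2) + 1) := by
    intro m hm
    obtain ⟨k, rfl⟩ : ∃ k, m = k + 13 := ⟨m - 13, by omega⟩
    refine ⟨?_, ?_⟩
    · exact upper k (by omega)
    · exact lower' (k + 9)
  have hno : ¬ ∃ L : ℝ, Tendsto (fun N : ℕ => (M SZ N : ℝ) / N) atTop (𝓝 L) := by
    rintro ⟨L, hL⟩
    have hg : (1.618 : ℝ) < Real.goldenRatio := Pool.Agent.N533.ZK.gr_gt
    have hg2 : Real.goldenRatio < 1.6181 := Pool.Agent.N533.ZK.gr_lt
    have hsq := Real.goldenRatio_sq
    have ht : Tendsto (fun m : ℕ => Nat.fib m + Nat.fib (m - 2)) atTop atTop := by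
      refine tendsto_atTop_mono (fun m => ?_) (tendsto_sub_atTop_nat 1)
      have := Nat.le_fib_add_one m
      omega
    have ht2 : Tendsto (fun m : ℕ => Nat.fib m + Nat.fib (m - 2) + 1) atTop atTop :=
      tendsto_atTop_mono (fun m => by omega) ht
    have h1 : L ≤ 1 / 5 := by
      refine le_of_tendsto (hL.comp ht) ?_
      filter_upwards [eventually_ge_atTop 14] with m hm
      have h2 := (key m hm).1
      have h3 : (0 : ℝ) < ((Nat.fib m + Nat.fib (m - 2) : ℕ) : ℝ) := by
        have : 0 < Nat.fib m := Nat.fib_pos.2 (by omega)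
        exact_mod_cast (by omega)
      show (M SZ (Nat.fib m + Nat.fib (m - 2)) : ℝ) / ((Nat.fib m + Nat.fib (m - 2) : ℕ) : ℝ) ≤ _
      rw [div_le_iff₀ h3]
      linarith
    have h2 : 1 / (1 + Real.goldenRatio ^ 2) ≤ L := by
      refine ge_of_tendsto (hL.comp ht2) ?_
      filter_upwards [eventually_ge_atTop 14] with m hm
      have h2 := (key m hm).2
      have h3 : (0 : ℝ) < ((Nat.fib m + Nat.fib (m - 2) + 1 : ℕ) : ℝ) := by positivity
      show _ ≤ (M SZ (Nat.fib m + Nat.fib (m - 2) + 1) : ℝ) /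
        ((Nat.fib m + Nat.fib (m - 2) + 1 : ℕ) : ℝ)
      rw [le_div_iff₀ h3]
      have h4 : 1 / (1 + Real.goldenRatio ^ 2) * ((Nat.fib m + Nat.fib (m - 2) + 1 : ℕ) : ℝ) =
          ((Nat.fib m + Nat.fib (m - 2) + 1 : ℕ) : ℝ) / (1 + Real.goldenRatio ^ 2) := by ring
      rw [h4]
      exact h2
    have h3 : (1 : ℝ) / 5 < 1 / (1 + Real.goldenRatio ^ 2) := by
      rw [hsq]
      apply one_div_lt_one_div_of_lt
      · linarith
      · linarith
    linarith
  exact ⟨key, hno, fun h => hno ⟨_, h⟩⟩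

end Pool.Agent.Results.MP_b74c76_co.NoLimit
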